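import Pool.Agent.H53.VK.Stm

/-! # Crew VK, part D2L -/

set_option autoImplicit false

namespace VK

namespace D2Laux

/-- the weight: `+1` on `B`, `-1` on `A` -/
noncomputable def wt (A B : Finset Pt) (z : Pt) : ℤ :=
  (if z ∈ B then 1 else 0) - (if z ∈ A then 1 else 0)

theorem sum_wt (A B S : Finset Pt) :
    ∑ z ∈ S, wt A B z = ((B.filter (fun z => z ∈ S)).card : ℤ) - (A.filter (fun z => z ∈ S)).card := by
  unfold wt
  rw [Finset.sum_sub_distrib]
  congr 1
  · rw [Finset.sum_ite_mem, Finset.sum_const, nsmul_eq_mul, mul_one]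
    congr 2
    ext z
    simp only [Finset.mem_inter, Finset.mem_filter]
    tauto
  · rw [Finset.sum_ite_mem, Finset.sum_const, nsmul_eq_mul, mul_one]
    congr 2
    ext z
    simp only [Finset.mem_inter, Finset.mem_filter]
    tauto

/-- a frame separates points -/
theorem frame_inj {t h : Fn} (hf : det t h ≠ 0) {p q : Pt} (ht : ev t p = ev t q)
    (hh : ev h p = ev h q) : p = q := by
  unfold det at hf
  unfold ev at ht hh
  have h1 : (t.a * h.b - t.b * h.a) * (p.1 - q.1) = 0 := by
    linear_combination h.b * ht - t.b * hh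
  have h2 : (t.a * h.b - t.b * h.a) * (p.2 - q.2) = 0 := by
    linear_combination t.a * hh - h.a * ht
  have h3 : p.1 - q.1 = 0 := (mul_eq_zero.1 h1).resolve_left hf
  have h4 : p.2 - q.2 = 0 := (mul_eq_zero.1 h2).resolve_left hf
  exact Prod.ext (by linarith) (by linarith)

end D2Laux

open D2Laux in
theorem D2L_proved (hUPC : UPC_stmt) (hBLM : BLM_stmt) (hCUT : CUT_stmt) (hLIN : LIN_stmt)
    (hBAS : BAS_stmt) : D2L_stmt := by
  intro A B t h w y1 y2 x hAB hHyp hIH hcard D
  obtain ⟨bMono, -, -, -, -, bHyp, -⟩ := hBAS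
  have hy1A : y1 ∉ A := fun hA => (Finset.disjoint_left.1 hAB hA) D.hy1
  -- the set `Z`
  set Z : Finset Pt := (A ∪ B).filter (fun z => z ≠ y1 ∧ ¬ (ev h z = 0 ∧ ev t z < 0)) with hZ
  have memZ : ∀ z, z ∈ Z ↔ z ∈ A ∪ B ∧ z ≠ y1 ∧ ¬ (ev h z = 0 ∧ ev t z < 0) := by
    intro z; rw [hZ, Finset.mem_filter]
  have hZh : ∀ z ∈ Z, 0 ≤ ev h z := fun z hz => D.supp z ((memZ z).1 hz).1
  have hZt : ∀ z ∈ Z, ev h z = 0 → 0 < ev t z := by
    intro z hz h0
    obtain ⟨_, hne, hn⟩ := (memZ z).1 hz
    by_contra hcon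
    push Not at hcon
    rcases hcon.lt_or_eq with hlt | heq
    · exact hn ⟨h0, hlt⟩
    · exact hne (frame_inj D.fr (heq.trans D.ty1.symm) (h0.trans D.zy1.symm))
  have hsum1 : (∑ z ∈ Z.filter (fun z => ev h z = 0), wt A B z) ≤ -1 := by
    rw [sum_wt]
    have hb : (B.filter (fun z => z ∈ Z.filter (fun z => ev h z = 0))).card ≤ 1 := by
      rw [Finset.card_le_one]
      have key : ∀ a ∈ B.filter (fun z => z ∈ Z.filter (fun z => ev h z = 0)), a = y2 := by
        intro a ha
        rw [Finset.mem_filter, Finset.mem_filter, memZ] at ha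
        obtain ⟨haB, ⟨_, hne, _⟩, h0⟩ := ha
        exact (D.onlyB a haB h0).resolve_left hne
      intro a ha b hb
      rw [key a ha, key b hb]
    have ha : 2 ≤ (A.filter (fun z => z ∈ Z.filter (fun z => ev h z = 0))).card := by
      refine D.cr.trans (Finset.card_le_card ?_)
      intro z hz
      rw [Finset.mem_filter] at hz
      obtain ⟨hzA, h0, ht⟩ := hz
      rw [Finset.mem_filter, Finset.mem_filter, memZ]
      refine ⟨hzA, ⟨Finset.mem_union_left _ hzA, ?_, ?_⟩, h0⟩
      · rintro rfl
        exact hy1A hzA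
      · rintro ⟨_, h2⟩
        linarith
    omega
  have hsum2 : -1 + 1 ≤ ∑ z ∈ Z, wt A B z := by
    rw [sum_wt]
    have hb : B.card ≤ (B.filter (fun z => z ∈ Z)).card + 1 := by
      have : B.erase y1 ⊆ B.filter (fun z => z ∈ Z) := by
        intro z hz
        obtain ⟨hne, hzB⟩ := Finset.mem_erase.1 hz
        rw [Finset.mem_filter, memZ]
        refine ⟨hzB, Finset.mem_union_right _ hzB, hne, ?_⟩
        rintro ⟨h0, hlt⟩
        rcases D.onlyB z hzB h0 with rfl | rfl
        · exact hne rfl
        · exact absurd D.ty2 (not_lt.2 hlt.le)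
      have h1 := Finset.card_le_card this
      rw [Finset.card_erase_of_mem D.hy1] at h1
      omega
    have ha : (A.filter (fun z => z ∈ Z)).card + 2 ≤ A.card := by
      have hd : Disjoint (A.filter (fun z => z ∈ Z)) (A.filter (fun z => ev h z = 0 ∧ ev t z < 0)) := by
        rw [Finset.disjoint_left]
        intro z hz hz'
        rw [Finset.mem_filter, memZ] at hz
        rw [Finset.mem_filter] at hz'
        exact hz.2.2.2 hz'.2
      have hsub : (A.filter (fun z => z ∈ Z)) ∪ (A.filter (fun z => ev h z = 0 ∧ ev t z < 0)) ⊆ A := by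
        apply Finset.union_subset <;> exact Finset.filter_subset _ _
      have h1 := Finset.card_le_card hsub
      rw [Finset.card_union_of_disjoint hd] at h1
      have := D.cl
      omega
    omega
  obtain ⟨s, ⟨z0, hz0Z, hz0h, hz0t⟩, hS1, hS2⟩ := hUPC Z t h (wt A B) (-1) hZh hZt hsum1 hsum2
  -- the cutting functional
  set g : Fn := lin 1 t (-s) h 0 with hg
  have evg : ∀ z, ev g z = ev t z - s * ev h z := by
    intro z; rw [hg, ev_lin]; ring
  have gline : ∀ z, ev h z = 0 → ev g z = ev t z := by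
    intro z hz; rw [evg, hz]; ring
  have gy1 : ev g y1 = 0 := by rw [gline _ D.zy1, D.ty1]
  set A1 := A.filter (fun z => 0 ≤ ev g z) with hA1
  set B1 := B.filter (fun z => 0 ≤ ev g z) with hB1
  set A2 := A.filter (fun z => ev g z ≤ 0) with hA2
  set B2 := B.filter (fun z => ev g z ≤ 0) with hB2
  have hz0A : z0 ∈ A ∪ B := ((memZ z0).1 hz0Z).1
  have hz0g : ev g z0 = 0 := by rw [evg, hz0t]; ring
  have hz02 : z0 ∈ A2 ∪ B2 := by
    rcases Finset.mem_union.1 hz0A with hh | hh
    · exact Finset.mem_union_left _ (Finset.mem_filter.2 ⟨hh, hz0g.le⟩)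
    · exact Finset.mem_union_right _ (Finset.mem_filter.2 ⟨hh, hz0g.le⟩)
  have hy1B1 : y1 ∈ B1 := Finset.mem_filter.2 ⟨D.hy1, gy1.ge⟩
  have hy1B2 : y1 ∈ B2 := Finset.mem_filter.2 ⟨D.hy1, gy1.le⟩
  -- counts
  have hcA1 : A1.card + 1 ≤ B1.card := by
    rw [sum_wt] at hS2
    have hb : B.filter (fun z => z ∈ Z.filter (fun z => s * ev h z ≤ ev t z)) = B1.erase y1 := by
      ext z
      rw [Finset.mem_filter, Finset.mem_filter, memZ, Finset.mem_erase, hB1, Finset.mem_filter, evg]
      constructor
      · rintro ⟨h1, ⟨_, h2, _⟩, h3⟩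
        exact ⟨h2, h1, by linarith⟩
      · rintro ⟨h2, h1, h3⟩
        refine ⟨h1, ⟨Finset.mem_union_right _ h1, h2, ?_⟩, by linarith⟩
        rintro ⟨h4, h5⟩
        rw [h4] at h3
        linarith
    have ha : A.filter (fun z => z ∈ Z.filter (fun z => s * ev h z ≤ ev t z)) = A1 := by
      ext z
      rw [Finset.mem_filter, Finset.mem_filter, memZ, hA1, Finset.mem_filter, evg]
      constructor
      · rintro ⟨h1, _, h3⟩
        exact ⟨h1, by linarith⟩
      · rintro ⟨h1, h3⟩
        refine ⟨h1, ⟨Finset.mem_union_left _ h1, ?_, ?_⟩, by linarith⟩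
        · rintro rfl
          exact hy1A h1
        · rintro ⟨h4, h5⟩
          rw [h4] at h3
          linarith
    rw [hb, ha, Finset.card_erase_of_mem hy1B1] at hS2
    have hpos : 0 < B1.card := Finset.card_pos.2 ⟨y1, hy1B1⟩
    omega
  have hcA2 : A2.card + 1 ≤ B2.card := by
    rw [sum_wt] at hS1
    have hb : B.filter (fun z => z ∈ Z.filter (fun z => s * ev h z < ev t z)) =
        B.filter (fun z => ¬ ev g z ≤ 0) := by
      ext z
      rw [Finset.mem_filter, Finset.mem_filter, memZ, Finset.mem_filter, evg]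
      constructor
      · rintro ⟨h1, _, h3⟩
        exact ⟨h1, by linarith⟩
      · rintro ⟨h1, h3⟩
        rw [not_le] at h3
        refine ⟨h1, ⟨Finset.mem_union_right _ h1, ?_, ?_⟩, by linarith⟩
        · rintro rfl
          rw [D.ty1, D.zy1] at h3
          linarith
        · rintro ⟨h4, h5⟩
          rw [h4] at h3
          linarith
    have ha : A.filter (fun z => z ∈ Z.filter (fun z => s * ev h z < ev t z)) =
        A.filter (fun z => ¬ ev g z ≤ 0) := by
      ext z
      rw [Finset.mem_filter, Finset.mem_filter, memZ, Finset.mem_filter, evg]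
      constructor
      · rintro ⟨h1, _, h3⟩
        exact ⟨h1, by linarith⟩
      · rintro ⟨h1, h3⟩
        rw [not_le] at h3
        refine ⟨h1, ⟨Finset.mem_union_left _ h1, ?_, ?_⟩, by linarith⟩
        · rintro rfl
          exact hy1A h1
        · rintro ⟨h4, h5⟩
          rw [h4] at h3
          linarith
    rw [hb, ha] at hS1
    have h1 := Finset.card_filter_add_card_filter_not (s := A) (fun z => ev g z ≤ 0)
    have h2 := Finset.card_filter_add_card_filter_not (s := B) (fun z => ev g z ≤ 0)
    rw [← hA2] at h1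
    rw [← hB2] at h2
    omega
  have hcA12 : A1.card + A2.card = A.card + (A.filter (fun z => ev g z = 0)).card := by
    have h1 : A1 ∪ A2 = A := by
      ext z
      rw [Finset.mem_union, hA1, hA2, Finset.mem_filter, Finset.mem_filter]
      constructor
      · rintro (hh | hh) <;> exact hh.1
      · intro hh
        rcases le_total 0 (ev g z) with h3 | h3
        · exact Or.inl ⟨hh, h3⟩
        · exact Or.inr ⟨hh, h3⟩
    have h2 : A1 ∩ A2 = A.filter (fun z => ev g z = 0) := by
      ext z
      rw [Finset.mem_inter, hA1, hA2, Finset.mem_filter, Finset.mem_filter, Finset.mem_filter]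
      constructor
      · rintro ⟨h3, h4⟩
        exact ⟨h3.1, le_antisymm h4.2 h3.2⟩
      · rintro ⟨h3, h4⟩
        exact ⟨⟨h3, h4.ge⟩, ⟨h3, h4.le⟩⟩
    have := Finset.card_union_add_card_inter A1 A2
    rw [h1, h2] at this
    omega
  have sA1 : A1 ⊆ A := Finset.filter_subset _ _
  have sB1 : B1 ⊆ B := Finset.filter_subset _ _
  have sA2 : A2 ⊆ A := Finset.filter_subset _ _
  have sB2 : B2 ⊆ B := Finset.filter_subset _ _
  have hwA2 : w ∈ A2 := Finset.mem_filter.2 ⟨D.hw, by rw [gline _ D.zw]; exact D.tw.le⟩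
  have hxt : 0 < ev t x := D.ty2.trans D.tx
  have hxA1 : x ∈ A1 := Finset.mem_filter.2 ⟨D.hx, by rw [gline _ D.zx]; exact hxt.le⟩
  have hy2B1 : y2 ∈ B1.erase y1 := by
    refine Finset.mem_erase.2 ⟨?_, Finset.mem_filter.2 ⟨D.hy2, by rw [gline _ D.zy2]; exact D.ty2.le⟩⟩
    rintro rfl
    have := D.ty2
    rw [D.ty1] at this
    exact lt_irrefl _ this
  -- the side `g ≤ 0`
  set t' : Fn := lin (-1) t 0 h 0 with ht'
  have evt' : ∀ z, ev t' z = - ev t z := by
    intro z; rw [ht', ev_lin]; ring
  have hER2 : ER A2 B2 t' h y1 w := by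
    refine ⟨?_, hy1B2, hwA2, ?_, D.zy1, D.zw, ?_, ?_⟩
    · have : det t' h = - det t h := by
        rw [ht']; unfold det lin; ring
      rw [this]
      exact neg_ne_zero.2 D.fr
    · intro z hz
      exact D.supp z (Finset.union_subset_union sA2 sB2 hz)
    · rw [evt', evt', D.ty1]
      have := D.tw
      linarith
    · intro z hz h0
      rw [evt', evt']
      rcases Finset.mem_union.1 hz with hh | hh
      · obtain ⟨hzA, hzg⟩ := Finset.mem_filter.1 hh
        rw [gline _ h0] at hzg
        rcases D.rest z hzA h0 with rfl | rfl | h3 | h3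
        · exact absurd hxt (not_lt.2 hzg)
        · exact Or.inr (Or.inl rfl)
        · exfalso; linarith
        · right; right; linarith
      · obtain ⟨hzB, hzg⟩ := Finset.mem_filter.1 hh
        rw [gline _ h0] at hzg
        rcases D.onlyB z hzB h0 with rfl | rfl
        · exact Or.inl rfl
        · exact absurd D.ty2 (not_lt.2 hzg)
  have hB2e : (B2.erase y1).card = B2.card - 1 := Finset.card_erase_of_mem hy1B2
  have hA2pos : 0 < A2.card := Finset.card_pos.2 ⟨w, hwA2⟩
  have hIH2 := hIH A2 (B2.erase y1)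
    (Finset.disjoint_of_subset_left sA2 (Finset.disjoint_of_subset_right
      ((Finset.erase_subset _ _).trans sB2) hAB)) ⟨w, hwA2⟩
    (Finset.card_pos.1 (by omega))
    (by
      have h1 := Finset.card_le_card sA2
      have h2 := Finset.card_le_card sB2
      omega)
    (bHyp A2 A (B2.erase y1) B 2 sA2 ((Finset.erase_subset _ _).trans sB2) hHyp)
  have hmin2 : min A2.card (B2.erase y1).card = A2.card := min_eq_left (by omega)
  rw [hmin2] at hIH2
  have hF2 : Fge A2 B2 (2 * A2.card - 1) := by
    rcases hBLM A2 B2 t' h y1 w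
      (Finset.disjoint_of_subset_left sA2 (Finset.disjoint_of_subset_right sB2 hAB)) hER2
      ⟨z0, hz02, hz0h⟩ with hb | ⟨hE, hb⟩
    · exact bMono _ _ _ _ (by omega) (hb _ hIH2.1)
    · exact bMono _ _ _ _ (by omega) (hb _ (hIH2.2 hE))
  -- the side `g ≥ 0`
  have hER1 : ER A1 (B1.erase y1) t h y2 x := by
    refine ⟨D.fr, hy2B1, hxA1, ?_, D.zy2, D.zx, D.tx, ?_⟩
    · intro z hz
      exact D.supp z (Finset.union_subset_union sA1 ((Finset.erase_subset _ _).trans sB1) hz)
    · intro z hz h0
      rcases Finset.mem_union.1 hz with hh | hh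
      · obtain ⟨hzA, hzg⟩ := Finset.mem_filter.1 hh
        rw [gline _ h0] at hzg
        rcases D.rest z hzA h0 with rfl | rfl | h3 | h3
        · exact Or.inr (Or.inl rfl)
        · exact absurd D.tw (not_lt.2 hzg)
        · exact Or.inr (Or.inr h3)
        · exfalso
          have := D.tw
          linarith
      · obtain ⟨hne, hzB1⟩ := Finset.mem_erase.1 hh
        obtain ⟨hzB, hzg⟩ := Finset.mem_filter.1 hzB1
        exact Or.inl ((D.onlyB z hzB h0).resolve_left hne)
  have hB1e : (B1.erase y1).card = B1.card - 1 := Finset.card_erase_of_mem hy1B1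
  have hA1pos : 0 < A1.card := Finset.card_pos.2 ⟨x, hxA1⟩
  have hIH1 := hIH A1 (B1.erase y1)
    (Finset.disjoint_of_subset_left sA1 (Finset.disjoint_of_subset_right
      ((Finset.erase_subset _ _).trans sB1) hAB)) ⟨x, hxA1⟩ ⟨y2, hy2B1⟩
    (by
      have h1 := Finset.card_le_card sA1
      have h2 := Finset.card_le_card sB1
      omega)
    (bHyp A1 A (B1.erase y1) B 2 sA1 ((Finset.erase_subset _ _).trans sB1) hHyp)
  have hmin1 : min A1.card (B1.erase y1).card = A1.card := min_eq_left (by omega)
  rw [hmin1] at hIH1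
  have hF1 : Fge A1 (B1.erase y1) (2 * A1.card - 2) := hIH1.2 (Or.inl ⟨t, h, y2, x, hER1⟩)
  -- the cut
  have hfin := hCUT A B A1 (B1.erase y1) A2 B2 g (2 * A1.card - 2) (2 * A2.card - 1)
    (2 * (A.filter (fun z => ev g z = 0)).card) sA1 ((Finset.erase_subset _ _).trans sB1) sA2 sB2
    (by
      intro z hz
      rcases Finset.mem_union.1 hz with hh | hh
      · exact (Finset.mem_filter.1 hh).2
      · exact (Finset.mem_filter.1 (Finset.mem_erase.1 hh).2).2)
    (by
      intro z hz
      rcases Finset.mem_union.1 hz with hh | hh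
      · exact (Finset.mem_filter.1 hh).2
      · exact (Finset.mem_filter.1 hh).2)
    (by
      intro E hE
      have h1 := (hLIN (A2.filter (fun z => ev g z = 0)) (B2.filter (fun z => ev g z = 0)) h g
        (Finset.disjoint_of_subset_left ((Finset.filter_subset _ _).trans sA2)
          (Finset.disjoint_of_subset_right ((Finset.filter_subset _ _).trans sB2) hAB))
        (by
          have : det h g = - det t h := by
            rw [hg]; unfold det lin; ring
          rw [this]
          exact neg_ne_zero.2 D.fr)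
        (by
          intro z hz
          rcases Finset.mem_union.1 hz with hh | hh
          · exact (Finset.mem_filter.1 hh).2
          · exact (Finset.mem_filter.1 hh).2) E hE).1
      refine h1.trans (Nat.mul_le_mul_left _ (Finset.card_le_card ?_))
      exact Finset.filter_subset_filter _ sA2)
    hF1 hF2
  exact bMono _ _ _ _ (by omega) hfin

end VK
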